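import Pool.Agent.helper13.UN.SpecG

/-!
UN block H, row `GSD` (MP_cf4097_nt): the root number does not depend on the class.
-/

set_option autoImplicit false

open NumberField Complex

namespace Pool.Agent.UN

theorem GSD_top {R : Type} [CommRing R] (I f : Ideal R) (x : R) (hx : x ∈ I) (hx1 : x - 1 ∈ f) :
    I ⊔ f = ⊤ := by
  rw [Ideal.eq_top_iff_one]
  have h : (1 : R) = x + -(x - 1) := by ring
  rw [h]
  exact Submodule.add_mem_sup hx (f.neg_mem hx1)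

theorem GSD_alg (u v w a g m p o : ℂ) (hu : ‖u‖ = 1) (hv : ‖v‖ = 1) (hw : ‖w‖ = 1) (hm : m ≠ 0)
    (h1 : p * w = u * o) (h2 : v * p = m) (h3 : o * g = m * a) :
    a * (starRingEnd ℂ) w = (starRingEnd ℂ) u * g * (starRingEnd ℂ) v := by
  have hu' : u * (starRingEnd ℂ) u = 1 := by rw [Complex.mul_conj', hu]; norm_num
  have hv' : v * (starRingEnd ℂ) v = 1 := by rw [Complex.mul_conj', hv]; norm_num
  have hw' : w * (starRingEnd ℂ) w = 1 := by rw [Complex.mul_conj', hw]; norm_num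
  have h4 : u * a * v = w * g := by
    refine mul_left_cancel₀ hm ?_
    linear_combination - (u * v) * h3 - (v * g) * h1 + (w * g) * h2
  linear_combination ((starRingEnd ℂ) u * (starRingEnd ℂ) v * (starRingEnd ℂ) w) * h4
    - (a * (starRingEnd ℂ) w * (v * (starRingEnd ℂ) v)) * hu' - (a * (starRingEnd ℂ) w) * hv'
    + (g * (starRingEnd ℂ) u * (starRingEnd ℂ) v) * hw'

theorem GSD_ring {R : Type} [CommRing R] [IsDedekindDomain R] (f b b' d d' D : Ideal R) (β γ ν x₀ μ y₀ : R)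
    (hf0 : f ≠ ⊥) (hb : b ≠ ⊥) (hb' : b' ≠ ⊥) (hd : d ≠ ⊥) (hd' : d' ≠ ⊥) (hβ : β ≠ 0) (hγ : γ ≠ 0)
    (hβs : Ideal.span {β} = (b * f) * b' * D) (hγs : Ideal.span {γ} = (d * f) * d' * D)
    (hν1 : ν ∈ b) (hν2 : ν - 1 ∈ f) (hν3 : ν ≠ 0) (hx1 : x₀ ∈ b') (hx2 : x₀ - 1 ∈ f) (hx3 : x₀ ≠ 0)
    (hμ1 : μ ∈ d) (hμ2 : μ - 1 ∈ f) (hμ3 : μ ≠ 0) (hy1 : y₀ ∈ d') (hy2 : y₀ - 1 ∈ f) (hy3 : y₀ ≠ 0) :
    ∃ (P B : Ideal R) (c ω w : R), P ≠ ⊥ ∧ P ⊔ f = ⊤ ∧ Ideal.span {μ * y₀} = (d * d') * P ∧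
      Ideal.span {ω} = P * (b * b') ∧ ω ≠ 0 ∧ ω * γ = μ * y₀ * β ∧ ω - ν * x₀ * c ∈ f ∧ B * f ≠ ⊥ ∧ w ∈ B * f ∧
      Ideal.span {β * γ} = B * f * D ∧ c * (ν * x₀ * γ) + w = μ * y₀ * β ∧ ν * x₀ - 1 ∈ f ∧ μ * y₀ - 1 ∈ f := by
  have hD0 : D ≠ ⊥ := by
    rintro rfl
    rw [Ideal.mul_bot, Ideal.span_singleton_eq_bot] at hβs
    exact hβ hβs
  -- the complementary ideals
  obtain ⟨P', hP'⟩ : ∃ P', Ideal.span {ν * x₀} = (b * b') * P' :=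
    Ideal.dvd_span_singleton.2 (Ideal.mul_mem_mul hν1 hx1)
  obtain ⟨P, hP⟩ : ∃ P, Ideal.span {μ * y₀} = (d * d') * P :=
    Ideal.dvd_span_singleton.2 (Ideal.mul_mem_mul hμ1 hy1)
  have hp0 : ν * x₀ ≠ 0 := mul_ne_zero hν3 hx3
  have hq0 : μ * y₀ ≠ 0 := mul_ne_zero hμ3 hy3
  have hp1 : ν * x₀ - 1 ∈ f := by
    have h : ν * x₀ - 1 = ν * (x₀ - 1) + (ν - 1) := by ring
    rw [h]
    exact f.add_mem (f.mul_mem_left _ hx2) hν2
  have hq1 : μ * y₀ - 1 ∈ f := by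
    have h : μ * y₀ - 1 = μ * (y₀ - 1) + (μ - 1) := by ring
    rw [h]
    exact f.add_mem (f.mul_mem_left _ hy2) hμ2
  have hpP : ν * x₀ ∈ P' := by
    have h : ν * x₀ ∈ (b * b') * P' := by rw [← hP']; exact Ideal.mem_span_singleton_self _
    exact Ideal.mul_le_right h
  have hqP : μ * y₀ ∈ P := by
    have h : μ * y₀ ∈ (d * d') * P := by rw [← hP]; exact Ideal.mem_span_singleton_self _
    exact Ideal.mul_le_right h
  have hP'f : P' ⊔ f = ⊤ := GSD_top P' f _ hpP hp1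
  have hPf : P ⊔ f = ⊤ := GSD_top P f _ hqP hq1
  have hP0 : P ≠ ⊥ := by
    rintro rfl
    rw [Ideal.mul_bot, Ideal.span_singleton_eq_bot] at hP
    exact hq0 hP
  -- the ideal `B`
  have hB0 : b * b' * d * d' * D * f ≠ ⊥ := by
    simp only [← Ideal.zero_eq_bot] at hb hb' hd hd' hD0 hf0 ⊢
    exact mul_ne_zero (mul_ne_zero (mul_ne_zero (mul_ne_zero (mul_ne_zero hb hb') hd) hd') hD0) hf0
  obtain ⟨B, hB⟩ : ∃ B, B = b * b' * d * d' * D * f := ⟨_, rfl⟩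
  rw [← hB] at hB0
  have hz' : Ideal.span {ν * x₀ * γ} = B * P' := by
    rw [← Ideal.span_singleton_mul_span_singleton, hP', hγs, hB]; ring
  have hz : Ideal.span {μ * y₀ * β} = B * P := by
    rw [← Ideal.span_singleton_mul_span_singleton, hP, hβs, hB]; ring
  have hzB : μ * y₀ * β ∈ Ideal.span {ν * x₀ * γ} ⊔ B * f := by
    rw [hz', ← Ideal.mul_sup, hP'f, Ideal.mul_top]
    have h : μ * y₀ * β ∈ B * P := by rw [← hz]; exact Ideal.mem_span_singleton_self _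
    exact Ideal.mul_le_left h
  obtain ⟨c, w, hw, hcw⟩ : ∃ c w : R, w ∈ B * f ∧ c * (ν * x₀ * γ) + w = μ * y₀ * β := by
    obtain ⟨y, hy, w, hw, hyw⟩ := Submodule.mem_sup.1 hzB
    obtain ⟨c, hc⟩ := Ideal.mem_span_singleton'.1 hy
    exact ⟨c, w, hw, by rw [hc, hyw]⟩
  -- the element `ω`
  obtain ⟨ω, hω⟩ : ∃ ω : R, ω * γ = μ * y₀ * β := by
    refine Ideal.mem_span_singleton'.1 ?_
    have h : μ * y₀ * β ∈ Ideal.span {γ} * (P * (b * b')) := by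
      have h2 : Ideal.span {γ} * (P * (b * b')) = Ideal.span {μ * y₀ * β} := by
        rw [hz, hγs, hB]; ring
      rw [h2]
      exact Ideal.mem_span_singleton_self _
    exact Ideal.mul_le_left h
  have hγ' : Ideal.span {γ} ≠ 0 := by
    rw [Ideal.zero_eq_bot, Ne, Ideal.span_singleton_eq_bot]; exact hγ
  have hωs : Ideal.span {ω} = P * (b * b') := by
    refine mul_right_cancel₀ hγ' ?_
    rw [Ideal.span_singleton_mul_span_singleton, hω, hz, hγs, hB]; ring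
  have hω0 : ω ≠ 0 := by
    rintro rfl
    rw [zero_mul] at hω
    exact mul_ne_zero hq0 hβ hω.symm
  have hωc : ω - ν * x₀ * c ∈ f := by
    have h1 : ν * x₀ * w ∈ Ideal.span {ν * x₀ * γ} * f := by
      have h2 : Ideal.span {ν * x₀ * γ} * f = P' * (B * f) := by rw [hz']; ring
      rw [h2]
      exact Ideal.mul_mem_mul hpP hw
    obtain ⟨y, hyf, hy'⟩ := Ideal.mem_span_singleton_mul.1 h1
    have h3 : ω - ν * x₀ * c = y := by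
      refine mul_left_cancel₀ (mul_ne_zero hp0 hγ) ?_
      linear_combination (ν * x₀) * hω - (ν * x₀) * hcw - hy'
    rw [h3]; exact hyf
  refine ⟨P, B, c, ω, w, hP0, hPf, hP, hωs, hω0, hω, hωc, ?_, hw, ?_, hcw, hp1, hq1⟩
  · rw [← Ideal.zero_eq_bot] at hB0 hf0 ⊢
    exact mul_ne_zero hB0 hf0
  · rw [← Ideal.span_singleton_mul_span_singleton, hβs, hγs, hB]; ring

theorem GSD (hGSA : GSA_stmt) (hGS0 : GS0_stmt) (hGEN : GEN_stmt) (hDUA : DUA_stmt) (hAIF : AIF_stmt) : GSD_stmt := by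
  intro K _ _ f χ τ m e F b b' d d' β γ ν x₀ μ y₀ hχ hAd hF hpr hb hb' hd hd' hbf hb'f hdf hd'f hβ hγ hβs hγs hν hx hμ hy
  obtain ⟨hν1, hν2, hν3⟩ := hν
  obtain ⟨hx1, hx2, hx3⟩ := hx
  obtain ⟨hμ1, hμ2, hμ3⟩ := hμ
  obtain ⟨hy1, hy2, hy3⟩ := hy
  obtain ⟨-, hAm, hAn, -, -, -, -⟩ := hAIF K τ m e hAd
  have hf0 : f ≠ ⊥ := hχ.f0
  obtain ⟨P, B, c, ω, w, hP0, hPf, hP, hωs, hω0, hω, hωc, hBf0, hw, hβγ, hcw, hp1, hq1⟩ :=
    GSD_ring f b b' d d' (differentIdeal ℤ (𝓞 K)) β γ ν x₀ μ y₀ hf0 hb hb' hd hd' hβ hγ hβs hγs hν1 hν2 hν3 hx1 hx2 hx3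
      hμ1 hμ2 hμ3 hy1 hy2 hy3
  have hq0 : μ * y₀ ≠ 0 := mul_ne_zero hμ3 hy3
  -- the values of `F`
  have hFp : F (ν * x₀) = 1 := by rw [hF.per _ 1 hp1, hF.one]
  have hFq : F (μ * y₀) = 1 := by rw [hF.per _ 1 hq1, hF.one]
  have hFω : F ω = F c := by rw [hF.per _ _ hωc, hF.mul, hFp, one_mul]
  -- the Gauss sums
  obtain ⟨hη, -, -⟩ := hGEN K b b' f β ν x₀ hb hb' hf0 hbf hb'f hβ hβs hν1 hν2 hx1 hx2
  have hgs1 := hGSA K f F _ hf0 hF hη c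
  have hmul : ∀ x y : 𝓞 K, ((x * y : 𝓞 K) : K) = ((x : 𝓞 K) : K) * ((y : 𝓞 K) : K) := fun x y =>
    map_mul (algebraMap (𝓞 K) K) x y
  have hβK : ((β : 𝓞 K) : K) ≠ 0 := by
    intro h; exact hβ (RingOfIntegers.coe_eq_zero_iff.1 h)
  have hγK : ((γ : 𝓞 K) : K) ≠ 0 := by
    intro h; exact hγ (RingOfIntegers.coe_eq_zero_iff.1 h)
  have hcwK : ((c : 𝓞 K) : K) * (((ν : 𝓞 K) : K) * ((x₀ : 𝓞 K) : K) * ((γ : 𝓞 K) : K)) + ((w : 𝓞 K) : K) =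
      ((μ : 𝓞 K) : K) * ((y₀ : 𝓞 K) : K) * ((β : 𝓞 K) : K) := by
    have h := congrArg (fun t : 𝓞 K => ((t : 𝓞 K) : K)) hcw
    simpa using h
  have hgs2 : gs f F (((μ * y₀ : 𝓞 K) : K) / ((γ : 𝓞 K) : K)) =
      gs f F (((ν * x₀ : 𝓞 K) : K) / ((β : 𝓞 K) : K) * ((c : 𝓞 K) : K)) := by
    refine (hGS0 K f F hf0 hF).2.1 _ _ ?_
    refine (hDUA K ⊤ (B * f) (β * γ) top_ne_bot hBf0 (mul_ne_zero hβ hγ) (by rw [hβγ, Ideal.top_mul]) _).2 ⟨w, hw, ?_⟩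
    rw [hmul, hmul, hmul]
    field_simp
    linear_combination - hcwK
  rw [hgs2, hgs1]
  -- the values of `χ`
  have hχω : χ P * (χ b * χ b') = F c * Ai τ m e ((ω : 𝓞 K) : K) := by
    rw [← hFω, ← hpr ω hω0, hωs, hχ.mul, hχ.mul]
  have hχq : χ d * χ d' * χ P = Ai τ m e ((μ * y₀ : 𝓞 K) : K) := by
    have h := hpr (μ * y₀) hq0
    rw [hP, hFq, one_mul, hχ.mul, hχ.mul] at h
    exact h
  have hωK : ((ω : 𝓞 K) : K) ≠ 0 := by
    intro h; exact hω0 (RingOfIntegers.coe_eq_zero_iff.1 h)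
  have hqK : ((μ * y₀ : 𝓞 K) : K) ≠ 0 := by
    intro h; exact hq0 (RingOfIntegers.coe_eq_zero_iff.1 h)
  have hA : Ai τ m e ((ω : 𝓞 K) : K) * Ai τ m e ((γ : 𝓞 K) : K) =
      Ai τ m e ((μ * y₀ : 𝓞 K) : K) * Ai τ m e ((β : 𝓞 K) : K) := by
    rw [← hAm _ _ hωK hγK, ← hAm _ _ hqK hβK]
    rw [← hmul, ← hmul, hω]
  have hnω : ‖F c‖ = 1 := by
    have h := congrArg norm hχω
    rw [norm_mul, norm_mul, norm_mul, hχ.unit P hP0 hPf, hχ.unit b hb hbf, hχ.unit b' hb' hb'f, (hAn _ hωK).1] at h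
    linarith
  have hfin := GSD_alg (F c) (χ d * χ d') (χ b * χ b') (Ai τ m e ((β : 𝓞 K) : K)) (Ai τ m e ((γ : 𝓞 K) : K))
    (Ai τ m e ((μ * y₀ : 𝓞 K) : K)) (χ P) (Ai τ m e ((ω : 𝓞 K) : K)) hnω
    (by rw [norm_mul, hχ.unit d hd hdf, hχ.unit d' hd' hd'f]; norm_num)
    (by rw [norm_mul, hχ.unit b hb hbf, hχ.unit b' hb' hb'f]; norm_num)
    (by
      intro h
      have h' := (hAn _ hqK).1
      rw [h, norm_zero] at h'
      exact zero_ne_one h') hχω hχq hA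
  linear_combination gs f F (((ν * x₀ : 𝓞 K) : K) / ((β : 𝓞 K) : K)) * hfin

end Pool.Agent.UN
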